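import Pool.Agent.Helper293.BddPart.Final

set_option autoImplicit false

namespace Pool.Agent.Results.MP_8d5739_co.Torsion

open Pool.Agent.Helper293.BddPart

/-- The free abelian group on the chains with `m` elements in `P`. -/
abbrev Ch (P : Type) [PartialOrder P] (m : ℕ) : Type := FreeAbelianGroup (Simplex P m)

/-- The simplicial boundary map, from the free abelian group on chains with `m + 1` elements
to the free abelian group on chains with `m` elements. For `m = 0` it is the augmentation. -/
def bd (P : Type) [PartialOrder P] (m : ℕ) : Ch P (m + 1) →+ Ch P m :=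
  FreeAbelianGroup.lift fun c =>
    ∑ j : Fin (m + 1), (-1 : ℤ) ^ (j : ℕ) • FreeAbelianGroup.of (c.face j)

/-- The group of cycles in degree `i`. -/
def cycles (P : Type) [PartialOrder P] (i : ℕ) : AddSubgroup (Ch P (i + 1)) := (bd P i).ker

/-- The group of boundaries in degree `i`. -/
def boundaries (P : Type) [PartialOrder P] (i : ℕ) : AddSubgroup (Ch P (i + 1)) :=
  (bd P (i + 1)).range

/-- The reduced homology in degree `i` (for `i = 0, 1, 2, ...`) of the order complex of `P`,
with integer coefficients: cycles modulo boundaries. -/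
def RedHom (P : Type) [PartialOrder P] (i : ℕ) : Type :=
  cycles P i ⧸ (boundaries P i).addSubgroupOf (cycles P i)

instance (P : Type) [PartialOrder P] (i : ℕ) : AddCommGroup (RedHom P i) :=
  QuotientAddGroup.Quotient.addCommGroup _

theorem bd_of {P : Type} [PartialOrder P] (m : ℕ) (c : Simplex P (m + 1)) :
    bd P m (FreeAbelianGroup.of c) =
      ∑ j : Fin (m + 1), (-1 : ℤ) ^ (j : ℕ) • FreeAbelianGroup.of (c.face j) := by
  unfold bd
  rw [FreeAbelianGroup.lift_apply_of]

theorem face_face {P : Type} [PartialOrder P] {m : ℕ} (c : Simplex P (m + 2))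
    (j : Fin (m + 2)) (i : Fin (m + 1)) :
    (c.face (j.succAbove i)).face (i.predAbove j) = (c.face j).face i := by
  apply Subtype.ext
  funext k
  exact congrArg c.1 (Fin.succAbove_succAbove_succAbove_predAbove j i k)

/-- The boundary of a boundary vanishes, so that boundaries are cycles. -/
theorem boundaries_le_cycles (P : Type) [PartialOrder P] (m : ℕ) :
    boundaries P m ≤ cycles P m := by
  have h : (bd P m).comp (bd P (m + 1)) = 0 := by
    apply FreeAbelianGroup.lift_ext
    intro c
    simp only [AddMonoidHom.comp_apply, AddMonoidHom.zero_apply]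
    rw [bd_of, map_sum]
    simp_rw [map_zsmul, bd_of, Finset.smul_sum, smul_smul, ← pow_add]
    rw [← Finset.sum_product']
    refine Finset.sum_involution (fun p _ => (p.1.succAbove p.2, p.2.predAbove p.1)) ?_ ?_ ?_ ?_
    · rintro ⟨j, i⟩ _
      simp only [Fin.neg_one_pow_succAbove_add_predAbove, face_face, neg_smul]
      exact add_neg_cancel _
    · rintro ⟨j, i⟩ _ _ h
      exact Fin.succAbove_ne j i (congrArg Prod.fst h)
    · intro p _
      simp
    · rintro ⟨j, i⟩ _
      simp only [Fin.succAbove_succAbove_predAbove, Fin.predAbove_predAbove_succAbove]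
  rintro _ ⟨w, rfl⟩
  exact DFunLike.congr_fun h w

theorem toFinsupp_bd {P : Type} [PartialOrder P] (m : ℕ) (x : Ch P (m + 1)) :
    FreeAbelianGroup.toFinsupp (bd P m x) = boundary P m (FreeAbelianGroup.toFinsupp x) := by
  have h : (FreeAbelianGroup.toFinsupp).comp (bd P m) =
      (boundary P m).toAddMonoidHom.comp FreeAbelianGroup.toFinsupp := by
    apply FreeAbelianGroup.lift_ext
    intro c
    simp only [AddMonoidHom.comp_apply, LinearMap.toAddMonoidHom_coe]
    rw [bd_of, map_sum, FreeAbelianGroup.toFinsupp_of, boundary_single]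
    refine Finset.sum_congr rfl fun j _ => ?_
    rw [map_zsmul, FreeAbelianGroup.toFinsupp_of]
  exact DFunLike.congr_fun h x

theorem not_free_of_torsion {M : Type} [AddCommGroup M] (h : ∃ x : M, addOrderOf x = 2) :
    ¬ Module.Free ℤ M := by
  intro hf
  obtain ⟨x, hx⟩ := h
  have hx0 : x ≠ 0 := by
    rintro rfl
    simp at hx
  have h2 : (2 : ℕ) • x = 0 := by rw [← hx]; exact addOrderOf_nsmul_eq_zero x
  apply hx0
  have b := Module.Free.chooseBasis ℤ M
  have h3 : (2 : ℕ) • b.repr x = 0 := by rw [← map_nsmul, h2, map_zero]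
  have h4 : b.repr x = 0 := by
    ext i
    have := DFunLike.congr_fun h3 i
    simpa using this
  simpa using h4

theorem toFinsupp_inj {X : Type} : Function.Injective
    (FreeAbelianGroup.toFinsupp : FreeAbelianGroup X →+ X →₀ ℤ) :=
  Function.LeftInverse.injective (g := Finsupp.toFreeAbelianGroup)
    Finsupp.toFreeAbelianGroup_toFinsupp

/-- There is an element of order two in the reduced homology in degree three. -/
theorem torsion_two : ∃ h : RedHom (BddPart 9 3) 3, addOrderOf h = 2 := by
  have hz : Finsupp.toFreeAbelianGroup zz ∈ cycles (BddPart 9 3) 3 := by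
    rw [cycles, AddMonoidHom.mem_ker]
    apply toFinsupp_inj
    rw [toFinsupp_bd, FreeAbelianGroup.toFinsupp_toFreeAbelianGroup, map_zero]
    exact boundary_zz
  refine ⟨QuotientAddGroup.mk ⟨Finsupp.toFreeAbelianGroup zz, hz⟩, ?_⟩
  apply addOrderOf_eq_prime
  · show (QuotientAddGroup.mk ((2 : ℕ) • (⟨Finsupp.toFreeAbelianGroup zz, hz⟩ :
      cycles (BddPart 9 3) 3)) : RedHom (BddPart 9 3) 3) = QuotientAddGroup.mk 0
    rw [QuotientAddGroup.eq, add_zero, neg_mem_iff, AddSubgroup.mem_addSubgroupOf]
    refine ⟨Finsupp.toFreeAbelianGroup ww, ?_⟩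
    apply toFinsupp_inj
    rw [toFinsupp_bd, FreeAbelianGroup.toFinsupp_toFreeAbelianGroup]
    rw [AddSubgroup.coe_nsmul, map_nsmul, FreeAbelianGroup.toFinsupp_toFreeAbelianGroup]
    exact boundary_ww
  · intro h
    have h' : (QuotientAddGroup.mk (⟨Finsupp.toFreeAbelianGroup zz, hz⟩ :
      cycles (BddPart 9 3) 3) : RedHom (BddPart 9 3) 3) = QuotientAddGroup.mk 0 := h
    rw [QuotientAddGroup.eq, add_zero, neg_mem_iff, AddSubgroup.mem_addSubgroupOf] at h'
    obtain ⟨w, hw⟩ := h'
    have h1 := phiL_boundary (FreeAbelianGroup.toFinsupp w)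
    rw [← toFinsupp_bd, hw, FreeAbelianGroup.toFinsupp_toFreeAbelianGroup, phiL_zz] at h1
    exact one_ne_zero h1

/-- The reduced integral homology in degree three of the poset of nontrivial partitions of a
nine element set into blocks of size at most three has an element of order two. In
particular it is not true that all these homology groups are free. -/
theorem result :
    (∃ h : RedHom (BddPart 9 3) 3, addOrderOf h = 2) ∧
    ¬ ∀ k n i : ℕ, 3 ≤ k → 1 ≤ n → Module.Free ℤ (RedHom (BddPart n k) i) :=
  ⟨torsion_two, fun h =>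
    not_free_of_torsion torsion_two (h 3 9 3 (by norm_num) (by norm_num))⟩

end Pool.Agent.Results.MP_8d5739_co.Torsion
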